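import Pool.Agent.L7h50.ME.Ker

/-!
Project ME (MP_3aaefc_nt), part INT: the integral of a product of two Fejér kernels.
-/

set_option autoImplicit false

namespace Pool.Agent.L7h50.ME

open Finset MeasureTheory Pool.Agent.L7h2.ME

/-- the weights of the Fejér kernel -/
noncomputable def wl (d : ℕ) (l : ℤ) : ℝ := ((d : ℝ) - |(l : ℝ)|) / (d : ℝ) ^ 2

theorem wl_nonneg {d : ℕ} {l : ℤ} (hl : l ∈ Ioo (-(d : ℤ)) d) : 0 ≤ wl d l := by
  rw [Finset.mem_Ioo] at hl
  unfold wl
  have h : |(l : ℝ)| ≤ d := by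
    rw [abs_le]
    constructor
    · have := hl.1.le
      exact_mod_cast this
    · have := hl.2.le
      exact_mod_cast this
  exact div_nonneg (by linarith) (by positivity)

theorem wl_sum {d : ℕ} (hd : 1 ≤ d) : ∑ l ∈ Ioo (-(d : ℤ)) d, wl d l = 1 := by
  have h := Gd_eq d 0
  have hd' : (d : ℝ) ≠ 0 := by positivity
  simp only [Gd, Cs, Sn, mul_zero, Real.cos_zero, Real.sin_zero, mul_one, Finset.sum_const,
    Finset.card_range, nsmul_eq_mul] at h
  unfold wl
  rw [← Finset.sum_div, h]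
  field_simp
  ring

theorem FK_wl (d : ℕ) (u : ℝ) :
    FK d u = ∑ l ∈ Ioo (-(d : ℤ)) d, wl d l * Real.cos (2 * Real.pi * (l : ℝ) * u / d) := rfl

theorem int_cos_bound (w φ a b T : ℝ) (hT : 0 < T) (hw : T ≤ |w|) :
    |∫ α in a..b, Real.cos (2 * Real.pi * w * α + φ)| ≤ 1 / T := by
  have hw0 : w ≠ 0 := by
    intro h
    rw [h, abs_zero] at hw
    linarith
  have hc : 2 * Real.pi * w ≠ 0 := by
    have := Real.pi_ne_zero
    positivity
  rw [intervalIntegral.integral_comp_mul_add (fun x => Real.cos x) hc, integral_cos, smul_eq_mul,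
    abs_mul, abs_inv]
  have h1 : |Real.sin (2 * Real.pi * w * b + φ) - Real.sin (2 * Real.pi * w * a + φ)| ≤ 2 := by
    rw [abs_le]
    have := Real.sin_le_one (2 * Real.pi * w * b + φ)
    have := Real.sin_le_one (2 * Real.pi * w * a + φ)
    have := Real.neg_one_le_sin (2 * Real.pi * w * b + φ)
    have := Real.neg_one_le_sin (2 * Real.pi * w * a + φ)
    constructor <;> linarith
  have h2 : 2 * T ≤ |2 * Real.pi * w| := by
    rw [abs_mul, abs_of_pos (by positivity : (0 : ℝ) < 2 * Real.pi)]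
    have := Real.pi_gt_three
    nlinarith
  have h3 : |2 * Real.pi * w|⁻¹ ≤ (2 * T)⁻¹ := inv_anti₀ (by positivity) h2
  calc |2 * Real.pi * w|⁻¹ *
        |Real.sin (2 * Real.pi * w * b + φ) - Real.sin (2 * Real.pi * w * a + φ)| ≤
        (2 * T)⁻¹ * 2 := mul_le_mul h3 h1 (abs_nonneg _) (by positivity)
    _ = 1 / T := by
      field_simp

/-- the integral of a product of two cosines -/
theorem int_cc (A A' φ φ' a b T : ℝ) (hT : 0 < T) (h1 : T ≤ |A + A'|) (h2 : T ≤ |A - A'|) :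
    |∫ α in a..b, Real.cos (2 * Real.pi * A * α + φ) * Real.cos (2 * Real.pi * A' * α + φ')| ≤
      1 / T := by
  have e : ∀ α : ℝ, Real.cos (2 * Real.pi * A * α + φ) * Real.cos (2 * Real.pi * A' * α + φ') =
      (1 / 2) * (Real.cos (2 * Real.pi * (A + A') * α + (φ + φ')) +
        Real.cos (2 * Real.pi * (A - A') * α + (φ - φ'))) := by
    intro α
    rw [show 2 * Real.pi * (A + A') * α + (φ + φ') =
      (2 * Real.pi * A * α + φ) + (2 * Real.pi * A' * α + φ') by ring,
      show 2 * Real.pi * (A - A') * α + (φ - φ') =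
      (2 * Real.pi * A * α + φ) - (2 * Real.pi * A' * α + φ') by ring,
      Real.cos_add (2 * Real.pi * A * α + φ) (2 * Real.pi * A' * α + φ'),
      Real.cos_sub (2 * Real.pi * A * α + φ) (2 * Real.pi * A' * α + φ')]
    ring
  simp only [e]
  rw [intervalIntegral.integral_const_mul, intervalIntegral.integral_add]
  · have b1 := int_cos_bound (A + A') (φ + φ') a b T hT h1
    have b2 := int_cos_bound (A - A') (φ - φ') a b T hT h2
    rw [abs_mul, abs_of_pos (by norm_num : (0 : ℝ) < 1 / 2)]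
    have := abs_add_le (∫ α in a..b, Real.cos (2 * Real.pi * (A + A') * α + (φ + φ')))
      (∫ α in a..b, Real.cos (2 * Real.pi * (A - A') * α + (φ - φ')))
    linarith
  · exact (by fun_prop : Continuous fun α : ℝ =>
      Real.cos (2 * Real.pi * (A + A') * α + (φ + φ'))).intervalIntegrable a b
  · exact (by fun_prop : Continuous fun α : ℝ =>
      Real.cos (2 * Real.pi * (A - A') * α + (φ - φ'))).intervalIntegrable a b

theorem FK_cont (d : ℕ) : Continuous (FK d) := by
  unfold FK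
  fun_prop

/-- [INT] -/
theorem s_INT : S_INT := by
  intro d d' hd hd' x x' s s' a b T hab hT hres
  have hd0 : (d : ℝ) ≠ 0 := by positivity
  have hd0' : (d' : ℝ) ≠ 0 := by positivity
  -- expand the product
  have hexp : ∀ α : ℝ, FK d (α * x - s) * FK d' (α * x' - s') =
      ∑ p ∈ Ioo (-(d : ℤ)) d ×ˢ Ioo (-(d' : ℤ)) d', (wl d p.1 * wl d' p.2) *
        (Real.cos (2 * Real.pi * (p.1 * x / d) * α + (-(2 * Real.pi * p.1 * s / d))) *
          Real.cos (2 * Real.pi * (p.2 * x' / d') * α + (-(2 * Real.pi * p.2 * s' / d')))) := by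
    intro α
    rw [FK_wl, FK_wl, Finset.sum_mul_sum, ← Finset.sum_product']
    refine Finset.sum_congr rfl ?_
    intro p _
    rw [show 2 * Real.pi * (p.1 : ℝ) * (α * x - s) / d =
      2 * Real.pi * (p.1 * x / d) * α + (-(2 * Real.pi * p.1 * s / d)) by ring,
      show 2 * Real.pi * (p.2 : ℝ) * (α * x' - s') / d' =
      2 * Real.pi * (p.2 * x' / d') * α + (-(2 * Real.pi * p.2 * s' / d')) by ring]
    ring
  simp only [hexp]
  rw [intervalIntegral.integral_finsetSum]
  swap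
  · intro p _
    exact (by fun_prop : Continuous fun α : ℝ => (wl d p.1 * wl d' p.2) *
        (Real.cos (2 * Real.pi * (p.1 * x / d) * α + (-(2 * Real.pi * p.1 * s / d))) *
          Real.cos (2 * Real.pi * (p.2 * x' / d') * α + (-(2 * Real.pi * p.2 * s' / d'))))
      ).intervalIntegrable a b
  have hmem : ((0 : ℤ), (0 : ℤ)) ∈ Ioo (-(d : ℤ)) d ×ˢ Ioo (-(d' : ℤ)) d' := by
    rw [Finset.mem_product, Finset.mem_Ioo, Finset.mem_Ioo]
    simp only
    omega
  rw [← Finset.add_sum_erase _ _ hmem]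
  have h00 : ∫ α in a..b, (wl d (0 : ℤ) * wl d' (0 : ℤ)) *
        (Real.cos (2 * Real.pi * (((0 : ℤ) : ℝ) * x / d) * α +
          (-(2 * Real.pi * ((0 : ℤ) : ℝ) * s / d))) *
          Real.cos (2 * Real.pi * (((0 : ℤ) : ℝ) * x' / d') * α +
            (-(2 * Real.pi * ((0 : ℤ) : ℝ) * s' / d')))) = (b - a) / ((d : ℝ) * d') := by
    have : ∀ α : ℝ, (wl d (0 : ℤ) * wl d' (0 : ℤ)) *
        (Real.cos (2 * Real.pi * (((0 : ℤ) : ℝ) * x / d) * α +
          (-(2 * Real.pi * ((0 : ℤ) : ℝ) * s / d))) *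
          Real.cos (2 * Real.pi * (((0 : ℤ) : ℝ) * x' / d') * α +
            (-(2 * Real.pi * ((0 : ℤ) : ℝ) * s' / d')))) = 1 / ((d : ℝ) * d') := by
      intro α
      simp only [Int.cast_zero, zero_mul, zero_div, mul_zero, neg_zero, add_zero, Real.cos_zero,
        mul_one, wl, abs_zero, sub_zero]
      field_simp
    simp only [this]
    rw [intervalIntegral.integral_const, smul_eq_mul]
    ring
  rw [h00, add_sub_cancel_left]
  have hterm : ∀ p ∈ (Ioo (-(d : ℤ)) d ×ˢ Ioo (-(d' : ℤ)) d').erase (0, 0),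
      |∫ α in a..b, (wl d p.1 * wl d' p.2) *
        (Real.cos (2 * Real.pi * (p.1 * x / d) * α + (-(2 * Real.pi * p.1 * s / d))) *
          Real.cos (2 * Real.pi * (p.2 * x' / d') * α + (-(2 * Real.pi * p.2 * s' / d'))))| ≤
      (wl d p.1 * wl d' p.2) * (1 / T) := by
    intro p hp
    rw [Finset.mem_erase, Finset.mem_product] at hp
    obtain ⟨hne, hp1, hp2⟩ := hp
    have hw : 0 ≤ wl d p.1 * wl d' p.2 := mul_nonneg (wl_nonneg hp1) (wl_nonneg hp2)
    rw [intervalIntegral.integral_const_mul, abs_mul, abs_of_nonneg hw]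
    refine mul_le_mul_of_nonneg_left ?_ hw
    rw [Finset.mem_Ioo] at hp1 hp2
    have hne' : p.1 ≠ 0 ∨ p.2 ≠ 0 := by
      by_contra hcon
      push Not at hcon
      exact hne (Prod.ext hcon.1 hcon.2)
    have a1 : |p.1| < (d : ℤ) := abs_lt.mpr hp1
    have a2 : |p.2| < (d' : ℤ) := abs_lt.mpr hp2
    apply int_cc _ _ _ _ _ _ _ hT
    · exact hres p.1 p.2 a1 a2 hne'
    · have := hres p.1 (-p.2) a1 (by rw [abs_neg]; exact a2) (by
        rcases hne' with h | h
        · left; exact h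
        · right; omega)
      push_cast at this
      rw [show (p.1 : ℝ) * x / d - p.2 * x' / d' = (p.1 : ℝ) * x / d + -(p.2 : ℝ) * x' / d' by ring]
      exact this
  calc |∑ p ∈ (Ioo (-(d : ℤ)) d ×ˢ Ioo (-(d' : ℤ)) d').erase (0, 0),
        ∫ α in a..b, (wl d p.1 * wl d' p.2) *
        (Real.cos (2 * Real.pi * (p.1 * x / d) * α + (-(2 * Real.pi * p.1 * s / d))) *
          Real.cos (2 * Real.pi * (p.2 * x' / d') * α + (-(2 * Real.pi * p.2 * s' / d'))))| ≤
      ∑ p ∈ (Ioo (-(d : ℤ)) d ×ˢ Ioo (-(d' : ℤ)) d').erase (0, 0),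
        (wl d p.1 * wl d' p.2) * (1 / T) :=
        (Finset.abs_sum_le_sum_abs _ _).trans (Finset.sum_le_sum hterm)
    _ ≤ ∑ p ∈ Ioo (-(d : ℤ)) d ×ˢ Ioo (-(d' : ℤ)) d', (wl d p.1 * wl d' p.2) * (1 / T) := by
        refine Finset.sum_le_sum_of_subset_of_nonneg (Finset.erase_subset _ _) ?_
        intro p hp _
        rw [Finset.mem_product] at hp
        exact mul_nonneg (mul_nonneg (wl_nonneg hp.1) (wl_nonneg hp.2)) (by positivity)
    _ = 1 / T := by
        rw [← Finset.sum_mul, Finset.sum_product, ← Finset.sum_mul_sum, wl_sum hd, wl_sum hd']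
        ring
    _ ≤ 2 / T := by
        apply div_le_div_of_nonneg_right (by norm_num) hT.le

end Pool.Agent.L7h50.ME
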