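import Pool.Agent.L7h2.ME.Stm

/-!
Project ME (MP_3aaefc_nt), part KER: the Fejér kernel majorant of a sieve weight.
-/

set_option autoImplicit false

namespace Pool.Agent.L7h50.ME

open Finset Pool.Agent.L7h2.ME

/-! ### The Fejér kernel -/

/-- cosine sums -/
noncomputable def Cs (M : ℕ) (θ : ℝ) : ℝ := ∑ h ∈ range M, Real.cos (h * θ)
/-- sine sums -/
noncomputable def Sn (M : ℕ) (θ : ℝ) : ℝ := ∑ h ∈ range M, Real.sin (h * θ)
/-- the Fejér sum -/
noncomputable def Gd (M : ℕ) (θ : ℝ) : ℝ :=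
  ∑ l ∈ Ioo (-(M : ℤ)) M, ((M : ℝ) - |(l : ℝ)|) * Real.cos (l * θ)

theorem even_sum (f : ℤ → ℝ) (hf : ∀ l, f (-l) = f l) (M : ℕ) :
    ∑ l ∈ Ioo (-((M + 1 : ℕ) : ℤ)) ((M + 1 : ℕ) : ℤ), f l =
      f 0 + 2 * ∑ h ∈ range M, f ((h : ℤ) + 1) := by
  induction M with
  | zero =>
    have : Ioo (-((0 + 1 : ℕ) : ℤ)) ((0 + 1 : ℕ) : ℤ) = {0} := by
      ext z
      simp only [Finset.mem_Ioo, Finset.mem_singleton]
      push_cast
      omega
    rw [this]
    simp
  | succ M ih =>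
    have : Ioo (-((M + 1 + 1 : ℕ) : ℤ)) ((M + 1 + 1 : ℕ) : ℤ) =
        insert ((M : ℤ) + 1) (insert (-((M : ℤ) + 1))
          (Ioo (-((M + 1 : ℕ) : ℤ)) ((M + 1 : ℕ) : ℤ))) := by
      ext z
      simp only [Finset.mem_Ioo, Finset.mem_insert]
      push_cast
      omega
    rw [this, Finset.sum_insert, Finset.sum_insert, ih, Finset.sum_range_succ, hf]
    · ring
    · simp only [Finset.mem_Ioo]
      push_cast
      omega
    · simp only [Finset.mem_Ioo, Finset.mem_insert]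
      push_cast
      omega

theorem Gd_succ (M : ℕ) (θ : ℝ) : Gd (M + 1) θ =
    ((M : ℝ) + 1) + 2 * ∑ h ∈ range M, ((M : ℝ) - h) * Real.cos (((h : ℝ) + 1) * θ) := by
  unfold Gd
  rw [even_sum (fun l => (((M + 1 : ℕ) : ℝ) - |(l : ℝ)|) * Real.cos (l * θ))]
  · simp only [Int.cast_zero, abs_zero, zero_mul, Real.cos_zero]
    push_cast
    rw [sub_zero, mul_one]
    congr 2
    refine Finset.sum_congr rfl ?_
    intro h _
    rw [abs_of_nonneg (by positivity : (0 : ℝ) ≤ (h : ℝ) + 1)]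
    ring
  · intro l
    simp only [Int.cast_neg, abs_neg, neg_mul, Real.cos_neg]

theorem reflect (M : ℕ) (θ : ℝ) : ∑ h ∈ range (M + 1), Real.cos (((M : ℝ) + 1) * θ - h * θ) =
    ∑ h ∈ range (M + 1), Real.cos (((h : ℝ) + 1) * θ) := by
  rw [← Finset.sum_range_reflect (fun h : ℕ => Real.cos (((h : ℝ) + 1) * θ))]
  refine Finset.sum_congr rfl ?_
  intro h hh
  have : h ≤ M := by
    have := Finset.mem_range.mp hh
    omega
  congr 1
  rw [Nat.add_sub_cancel, Nat.cast_sub this]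
  ring

theorem Gd_eq (M : ℕ) (θ : ℝ) : Gd M θ = Cs M θ ^ 2 + Sn M θ ^ 2 := by
  cases M with
  | zero => simp [Gd, Cs, Sn]
  | succ M =>
    rw [Gd_succ]
    induction M with
    | zero => simp [Cs, Sn]
    | succ M ih =>
      have e1 : Cs (M + 1 + 1) θ = Cs (M + 1) θ + Real.cos (((M : ℝ) + 1) * θ) := by
        unfold Cs
        rw [Finset.sum_range_succ]
        push_cast
        rfl
      have e2 : Sn (M + 1 + 1) θ = Sn (M + 1) θ + Real.sin (((M : ℝ) + 1) * θ) := by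
        unfold Sn
        rw [Finset.sum_range_succ]
        push_cast
        rfl
      have e3 : Cs (M + 1) θ * Real.cos (((M : ℝ) + 1) * θ) +
          Sn (M + 1) θ * Real.sin (((M : ℝ) + 1) * θ) =
          ∑ h ∈ range (M + 1), Real.cos (((h : ℝ) + 1) * θ) := by
        rw [← reflect]
        unfold Cs Sn
        rw [Finset.sum_mul, Finset.sum_mul, ← Finset.sum_add_distrib]
        refine Finset.sum_congr rfl ?_
        intro h _
        rw [Real.cos_sub]
        ring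
      have e4 : ∑ h ∈ range (M + 1), (((M + 1 : ℕ) : ℝ) - h) * Real.cos (((h : ℝ) + 1) * θ) =
          (∑ h ∈ range M, ((M : ℝ) - h) * Real.cos (((h : ℝ) + 1) * θ)) +
            ∑ h ∈ range (M + 1), Real.cos (((h : ℝ) + 1) * θ) := by
        have : (∑ h ∈ range M, ((M : ℝ) - h) * Real.cos (((h : ℝ) + 1) * θ)) =
            ∑ h ∈ range (M + 1), ((M : ℝ) - h) * Real.cos (((h : ℝ) + 1) * θ) := by
          rw [Finset.sum_range_succ]
          simp
        rw [this, ← Finset.sum_add_distrib]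
        refine Finset.sum_congr rfl ?_
        intro h _
        push_cast
        ring
      rw [e1, e2, e4, ← e3]
      have hcs := Real.cos_sq_add_sin_sq (((M : ℝ) + 1) * θ)
      push_cast
      nlinarith [ih, hcs]

theorem FK_eq (d : ℕ) (u : ℝ) : FK d u = Gd d (2 * Real.pi * u / d) / (d : ℝ) ^ 2 := by
  unfold FK Gd
  rw [Finset.sum_div]
  refine Finset.sum_congr rfl ?_
  intro l _
  rw [show 2 * Real.pi * (l : ℝ) * u / d = (l : ℝ) * (2 * Real.pi * u / d) by ring]
  ring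

theorem FK_nonneg (d : ℕ) (u : ℝ) : 0 ≤ FK d u := by
  rw [FK_eq, Gd_eq]
  positivity

theorem FK_add (d : ℕ) (hd : 1 ≤ d) (u : ℝ) (k : ℤ) : FK d (u + d * k) = FK d u := by
  unfold FK
  refine Finset.sum_congr rfl ?_
  intro l _
  have hd' : (d : ℝ) ≠ 0 := by positivity
  rw [show 2 * Real.pi * (l : ℝ) * (u + d * k) / d =
    2 * Real.pi * (l : ℝ) * u / d + ((l * k : ℤ) : ℝ) * (2 * Real.pi) by
      push_cast
      field_simp]
  rw [Real.cos_add_int_mul_two_pi]

theorem lin (M : ℕ) (θ : ℝ) :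
    (Real.cos θ - 1) * Cs M θ - Real.sin θ * Sn M θ = Real.cos (M * θ) - 1 ∧
    Real.sin θ * Cs M θ + (Real.cos θ - 1) * Sn M θ = Real.sin (M * θ) := by
  induction M with
  | zero => simp [Cs, Sn]
  | succ M ih =>
    obtain ⟨i1, i2⟩ := ih
    have e1 : Cs (M + 1) θ = Cs M θ + Real.cos (M * θ) := by
      unfold Cs
      rw [Finset.sum_range_succ]
    have e2 : Sn (M + 1) θ = Sn M θ + Real.sin (M * θ) := by
      unfold Sn
      rw [Finset.sum_range_succ]
    have e3 : ((M + 1 : ℕ) : ℝ) * θ = M * θ + θ := by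
      push_cast
      ring
    rw [e1, e2, e3, Real.cos_add, Real.sin_add]
    constructor
    · linear_combination i1
    · linear_combination i2

theorem closed (M : ℕ) (θ : ℝ) :
    (2 - 2 * Real.cos θ) * Gd M θ = 2 - 2 * Real.cos (M * θ) := by
  obtain ⟨i1, i2⟩ := lin M θ
  rw [Gd_eq]
  have h1 := Real.cos_sq_add_sin_sq θ
  have h2 := Real.cos_sq_add_sin_sq (M * θ)
  have : ((Real.cos θ - 1) * Cs M θ - Real.sin θ * Sn M θ) ^ 2 +
      (Real.sin θ * Cs M θ + (Real.cos θ - 1) * Sn M θ) ^ 2 =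
      (Real.cos (M * θ) - 1) ^ 2 + Real.sin (M * θ) ^ 2 := by rw [i1, i2]
  have e : (Real.cos (M * θ) - 1) ^ 2 + Real.sin (M * θ) ^ 2 = 2 - 2 * Real.cos (M * θ) := by
    linear_combination h2
  rw [e] at this
  rw [← this]
  linear_combination (-(Cs M θ ^ 2 + Sn M θ ^ 2)) * h1

theorem FK_ge (M : ℕ) (hM : 1 ≤ M) (u : ℝ) (hu : |u| ≤ 1 / 2) : 4 / Real.pi ^ 2 ≤ FK M u := by
  have hM' : (0 : ℝ) < M := by exact_mod_cast hM
  rw [FK_eq, le_div_iff₀ (by positivity)]
  set θ : ℝ := 2 * Real.pi * u / M with hθ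
  have hMθ : (M : ℝ) * θ = 2 * Real.pi * u := by
    rw [hθ]
    field_simp
  by_cases h0 : θ = 0
  · have : Gd M θ = (M : ℝ) ^ 2 := by
      rw [Gd_eq, h0]
      simp [Cs, Sn]
    rw [this]
    have hpi := Real.pi_gt_three
    have : 4 / Real.pi ^ 2 ≤ 1 := by
      rw [div_le_one (by positivity)]
      nlinarith
    nlinarith [sq_nonneg (M : ℝ)]
  · have hx : |(M : ℝ) * θ| ≤ Real.pi := by
      rw [hMθ, abs_mul, abs_of_pos (by positivity : (0 : ℝ) < 2 * Real.pi)]
      nlinarith [Real.pi_pos]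
    have b1 := Real.cos_le_one_sub_mul_cos_sq hx
    have b2 := Real.one_sub_sq_div_two_le_cos (x := θ)
    have hc := closed M θ
    have hG : 0 ≤ Gd M θ := by
      rw [Gd_eq]
      positivity
    have hθ2 : 0 < θ ^ 2 := by positivity
    have : (4 / Real.pi ^ 2 * (M : ℝ) ^ 2) * θ ^ 2 ≤ Gd M θ * θ ^ 2 := by
      have k1 : (2 - 2 * Real.cos θ) * Gd M θ ≤ θ ^ 2 * Gd M θ :=
        mul_le_mul_of_nonneg_right (by linarith) hG
      have k2 : 4 / Real.pi ^ 2 * (M : ℝ) ^ 2 * θ ^ 2 = 2 * (2 / Real.pi ^ 2 * ((M : ℝ) * θ) ^ 2) := by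
        ring
      rw [k2]
      linarith
    exact le_of_mul_le_mul_right this hθ2

/-! ### Sums over residue classes -/

theorem cos_sum_zero (q : ℕ) (hq : 1 ≤ q) (l : ℤ) (hl : ¬ (q : ℤ) ∣ l) (φ : ℝ) :
    ∑ j ∈ range q, Real.cos (φ - 2 * Real.pi * l * j / q) = 0 := by
  have hq' : (q : ℂ) ≠ 0 := by
    have : q ≠ 0 := by omega
    exact_mod_cast this
  set ζ : ℂ := Complex.exp (-(2 * Real.pi * l / q) * Complex.I) with hζ
  have h1 : ζ ^ q = 1 := by
    rw [hζ, ← Complex.exp_nat_mul, Complex.exp_eq_one_iff]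
    refine ⟨-l, ?_⟩
    push_cast
    field_simp
  have h2 : ζ ≠ 1 := by
    intro h
    rw [hζ, Complex.exp_eq_one_iff] at h
    obtain ⟨n, hn⟩ := h
    apply hl
    refine ⟨-n, ?_⟩
    have hpi : (2 * Real.pi * Complex.I : ℂ) ≠ 0 := Complex.two_pi_I_ne_zero
    have : (l : ℂ) = q * (-n) := by
      have h3 : (l : ℂ) * (2 * Real.pi * Complex.I) = (q * (-n)) * (2 * Real.pi * Complex.I) := by
        field_simp at hn
        linear_combination (-(2 * (Real.pi : ℂ) * Complex.I)) * hn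
      exact mul_right_cancel₀ hpi h3
    exact_mod_cast this
  have h3 : ∑ j ∈ range q, ζ ^ j = 0 := by
    have := geom_sum_mul ζ q
    rw [h1, sub_self] at this
    rcases mul_eq_zero.mp this with h | h
    · exact h
    · exact absurd (sub_eq_zero.mp h) h2
  have h4 : ∑ j ∈ range q, Complex.exp (((φ - 2 * Real.pi * l * j / q : ℝ) : ℂ) * Complex.I) = 0 := by
    have : ∀ j ∈ range q, Complex.exp (((φ - 2 * Real.pi * l * j / q : ℝ) : ℂ) * Complex.I) =
        Complex.exp (φ * Complex.I) * ζ ^ j := by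
      intro j _
      rw [hζ, ← Complex.exp_nat_mul, ← Complex.exp_add]
      congr 1
      push_cast
      ring
    rw [Finset.sum_congr rfl this, ← Finset.mul_sum, h3, mul_zero]
  have h5 := congrArg Complex.re h4
  rw [Complex.re_sum] at h5
  simpa only [Complex.exp_ofReal_mul_I_re, Complex.zero_re] using h5

theorem class_sum (d q : ℕ) (hd : 1 ≤ d) (hq : 1 ≤ q) (v : ℝ) :
    ∑ j ∈ range q, FK (d * q) (v - d * j) = FK d v := by
  have hd' : (d : ℝ) ≠ 0 := by positivity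
  have hq' : (q : ℝ) ≠ 0 := by positivity
  unfold FK
  rw [Finset.sum_comm]
  have key : ∀ l ∈ Ioo (-((d * q : ℕ) : ℤ)) ((d * q : ℕ) : ℤ),
      ∑ j ∈ range q, ((((d * q : ℕ) : ℝ) - |(l : ℝ)|) / ((d * q : ℕ) : ℝ) ^ 2) *
        Real.cos (2 * Real.pi * (l : ℝ) * (v - d * j) / ((d * q : ℕ) : ℝ)) =
      if (q : ℤ) ∣ l then q * (((((d * q : ℕ) : ℝ) - |(l : ℝ)|) / ((d * q : ℕ) : ℝ) ^ 2) *
        Real.cos (2 * Real.pi * (l : ℝ) * v / ((d * q : ℕ) : ℝ))) else 0 := by
    intro l _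
    have e : ∀ j ∈ range q, Real.cos (2 * Real.pi * (l : ℝ) * (v - d * j) / ((d * q : ℕ) : ℝ)) =
        Real.cos (2 * Real.pi * (l : ℝ) * v / ((d * q : ℕ) : ℝ) - 2 * Real.pi * l * j / q) := by
      intro j _
      congr 1
      push_cast
      field_simp
    rw [← Finset.mul_sum, Finset.sum_congr rfl e]
    split_ifs with h
    · obtain ⟨l', rfl⟩ := h
      have e2 : ∀ j ∈ range q, Real.cos (2 * Real.pi * ((q * l' : ℤ) : ℝ) * v / ((d * q : ℕ) : ℝ) -
          2 * Real.pi * ((q * l' : ℤ) : ℝ) * j / q) =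
          Real.cos (2 * Real.pi * ((q * l' : ℤ) : ℝ) * v / ((d * q : ℕ) : ℝ)) := by
        intro j _
        rw [← Real.cos_add_int_mul_two_pi _ (l' * j)]
        congr 1
        push_cast
        field_simp
        ring
      rw [Finset.sum_congr rfl e2, Finset.sum_const, Finset.card_range, nsmul_eq_mul]
      ring
    · rw [cos_sum_zero q hq l h, mul_zero]
  rw [Finset.sum_congr rfl key, ← Finset.sum_filter]
  symm
  refine Finset.sum_bij (fun l _ => (q : ℤ) * l) ?_ ?_ ?_ ?_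
  · intro l hl
    rw [Finset.mem_Ioo] at hl
    rw [Finset.mem_filter, Finset.mem_Ioo]
    have hq0 : (0 : ℤ) < q := by exact_mod_cast hq
    refine ⟨⟨?_, ?_⟩, Dvd.intro _ rfl⟩
    · push_cast
      nlinarith
    · push_cast
      nlinarith
  · intro l _ l' _ h
    have hq0 : (q : ℤ) ≠ 0 := by
      have : (0 : ℤ) < q := by exact_mod_cast hq
      omega
    exact mul_left_cancel₀ hq0 h
  · intro m hm
    rw [Finset.mem_filter, Finset.mem_Ioo] at hm
    obtain ⟨⟨h1, h2⟩, l, rfl⟩ := hm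
    have hq0 : (0 : ℤ) < q := by exact_mod_cast hq
    refine ⟨l, ?_, rfl⟩
    rw [Finset.mem_Ioo]
    push_cast at h1 h2
    constructor
    · by_contra hcon
      nlinarith
    · by_contra hcon
      nlinarith
  · intro l _
    have e1 : (((d * q : ℕ) : ℝ) - |((q * l : ℤ) : ℝ)|) = q * ((d : ℝ) - |(l : ℝ)|) := by
      push_cast
      rw [abs_mul, abs_of_nonneg (by positivity : (0 : ℝ) ≤ (q : ℝ))]
      ring
    rw [e1]
    have e2 : 2 * Real.pi * ((q * l : ℤ) : ℝ) * v / ((d * q : ℕ) : ℝ) =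
        2 * Real.pi * (l : ℝ) * v / d := by
      push_cast
      field_simp
    rw [e2]
    push_cast
    field_simp

theorem class_sum' (d M : ℕ) (hd : 1 ≤ d) (hM : 1 ≤ M) (hdM : d ∣ M) (r : ℤ) (t : ℝ) :
    ∑ m ∈ (Ico (0 : ℤ) M).filter (fun m => (d : ℤ) ∣ m - r), FK M (t - m) = FK d (t - r) := by
  obtain ⟨q, rfl⟩ := hdM
  have hq : 1 ≤ q := by
    rcases Nat.eq_zero_or_pos q with h | h
    · rw [h, mul_zero] at hM
      omega
    · exact h
  have hd0 : (0 : ℤ) < d := by exact_mod_cast hd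
  have hq0 : (0 : ℤ) < q := by exact_mod_cast hq
  have e1 : FK d (t - r) = FK d (t - ((r % d : ℤ) : ℝ)) := by
    rw [← FK_add d hd (t - r) (r / d)]
    congr 1
    have : ((r % (d : ℤ) : ℤ) : ℝ) + d * ((r / (d : ℤ) : ℤ) : ℝ) = r := by
      exact_mod_cast Int.emod_add_mul_ediv r d
    linarith
  rw [e1, ← class_sum d q hd hq]
  symm
  refine Finset.sum_bij (fun j _ => r % (d : ℤ) + d * (j : ℤ)) ?_ ?_ ?_ ?_
  · intro j hj
    rw [Finset.mem_filter, Finset.mem_Ico]
    have hj' : (j : ℤ) + 1 ≤ q := by exact_mod_cast Finset.mem_range.mp hj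
    have h1 := Int.emod_nonneg r hd0.ne'
    have h2 := Int.emod_lt_of_pos r hd0
    refine ⟨⟨by positivity, ?_⟩, ?_⟩
    · push_cast
      nlinarith
    · have := Int.emod_add_mul_ediv r d
      refine ⟨(j : ℤ) - r / d, ?_⟩
      linear_combination this
  · intro j _ j' _ h
    have : (d : ℤ) * j = d * j' := by linarith
    exact_mod_cast mul_left_cancel₀ hd0.ne' this
  · intro m hm
    rw [Finset.mem_filter, Finset.mem_Ico] at hm
    obtain ⟨⟨h1, h2⟩, k, hk⟩ := hm
    have h3 := Int.emod_nonneg r hd0.ne'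
    have h4 := Int.emod_lt_of_pos r hd0
    have h5 := Int.emod_add_mul_ediv r d
    have h6 : m = r % (d : ℤ) + d * (k + r / d) := by linear_combination hk - h5
    have h7 : 0 ≤ k + r / d := by
      by_contra hcon
      nlinarith
    have h8 : k + r / d < q := by
      push_cast at h2
      by_contra hcon
      nlinarith
    refine ⟨(k + r / d).toNat, ?_, ?_⟩
    · rw [Finset.mem_range]
      omega
    · rw [h6, Int.toNat_of_nonneg h7]
  · intro j _
    congr 1
    push_cast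
    ring

/-! ### The majorant -/

/-- [KER] -/
theorem s_KER : S_KER := by
  intro c Z hodd hds y r hr t
  set M : ℕ := ∏ d ∈ (Icc 1 Z).filter (fun d => Odd d), d with hMdef
  have hM1 : 1 ≤ M := by
    apply Nat.one_le_iff_ne_zero.mpr
    rw [hMdef, Finset.prod_ne_zero_iff]
    intro d hd
    rw [Finset.mem_filter, Finset.mem_Icc] at hd
    omega
  have hM0 : (0 : ℤ) < M := by exact_mod_cast hM1
  have hdM : ∀ d ∈ Icc 1 Z, c d ≠ 0 → d ∣ M := by
    intro d hd h0
    rw [hMdef]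
    exact Finset.dvd_prod_of_mem (fun d => d) (Finset.mem_filter.mpr ⟨hd, hodd d h0⟩)
  -- the divisor sum is periodic
  have hper : ∀ m k : ℤ, ds c Z (y + 2 * (m + M * k)) = ds c Z (y + 2 * m) := by
    intro m k
    unfold ds
    refine Finset.sum_congr rfl ?_
    intro d hd
    by_cases h0 : c d = 0
    · rw [h0, zero_mul, zero_mul]
    · have h1 : (d : ℤ) ∣ (M : ℤ) := Int.natCast_dvd_natCast.mpr (hdM d hd h0)
      have h2 : (d : ℤ) ∣ y + 2 * (m + M * k) ↔ (d : ℤ) ∣ y + 2 * m := by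
        have e : y + 2 * (m + M * k) = (y + 2 * m) + M * (2 * k) := by ring
        rw [e]
        exact dvd_add_left (dvd_mul_of_dvd_left h1 _)
      simp only [h2]
  -- the main identity
  have hmain : ∑ d ∈ Icc 1 Z, c d * FK d (t - r d - 1 / 2) =
      ∑ m ∈ Ico (0 : ℤ) M, FK M (t - 1 / 2 - m) * ds c Z (y + 2 * m) := by
    have e1 : ∀ d ∈ Icc 1 Z, c d * FK d (t - r d - 1 / 2) =
        ∑ m ∈ Ico (0 : ℤ) M, FK M (t - 1 / 2 - m) *
          (c d * (if (d : ℤ) ∣ y + 2 * m then 1 else 0)) := by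
      intro d hd
      by_cases h0 : c d = 0
      · rw [h0]
        simp
      · have hd1 := (Finset.mem_Icc.mp hd).1
        have ho := hodd d h0
        rw [show t - (r d : ℝ) - 1 / 2 = (t - 1 / 2) - (r d : ℝ) by ring,
          ← class_sum' d M hd1 hM1 (hdM d hd h0), Finset.mul_sum, Finset.sum_filter]
        refine Finset.sum_congr rfl ?_
        intro m _
        have hiff : (d : ℤ) ∣ m - r d ↔ (d : ℤ) ∣ y + 2 * m := by
          have hc : IsCoprime (d : ℤ) 2 := by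
            have : Nat.Coprime d 2 := (Nat.coprime_two_right).mpr ho
            exact_mod_cast Nat.isCoprime_iff_coprime.mpr this
          constructor
          · intro h
            have e : y + 2 * m = (y + 2 * r d) + (m - r d) * 2 := by ring
            rw [e]
            exact dvd_add (hr d ho) (dvd_mul_of_dvd_left h _)
          · intro h
            have e : 2 * (m - r d) = (y + 2 * m) - (y + 2 * r d) := by ring
            have : (d : ℤ) ∣ 2 * (m - r d) := by
              rw [e]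
              exact dvd_sub h (hr d ho)
            exact hc.dvd_of_dvd_mul_left this
        simp only [hiff]
        split_ifs
        · ring
        · ring
    rw [Finset.sum_congr rfl e1, Finset.sum_comm]
    refine Finset.sum_congr rfl ?_
    intro m _
    rw [← Finset.mul_sum]
    rfl
  rw [hmain]
  set m₀ : ℤ := ⌊t⌋ % M with hm₀
  have hm₀mem : m₀ ∈ Ico (0 : ℤ) M := by
    rw [Finset.mem_Ico]
    exact ⟨Int.emod_nonneg _ hM0.ne', Int.emod_lt_of_pos _ hM0⟩
  have hle : FK M (t - 1 / 2 - m₀) * ds c Z (y + 2 * m₀) ≤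
      ∑ m ∈ Ico (0 : ℤ) M, FK M (t - 1 / 2 - m) * ds c Z (y + 2 * m) :=
    Finset.single_le_sum (f := fun m : ℤ => FK M (t - 1 / 2 - m) * ds c Z (y + 2 * m))
      (fun m _ => mul_nonneg (FK_nonneg _ _) (hds _)) hm₀mem
  have hfl : m₀ + M * (⌊t⌋ / M) = ⌊t⌋ := Int.emod_add_mul_ediv _ _
  have hds0 : ds c Z (y + 2 * m₀) = ds c Z (y + 2 * ⌊t⌋) := by
    rw [← hper m₀ (⌊t⌋ / M), hfl]
  have hfk0 : 4 / Real.pi ^ 2 ≤ FK M (t - 1 / 2 - m₀) := by
    have hfl' : (m₀ : ℝ) + M * ((⌊t⌋ / (M : ℤ) : ℤ) : ℝ) = (⌊t⌋ : ℝ) := by exact_mod_cast hfl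
    have e : t - 1 / 2 - (m₀ : ℝ) = (t - 1 / 2 - (⌊t⌋ : ℝ)) + M * ((⌊t⌋ / (M : ℤ) : ℤ) : ℝ) := by
      linarith
    rw [e, FK_add M hM1]
    apply FK_ge M hM1
    rw [abs_le]
    have h1 := Int.floor_le t
    have h2 := Int.lt_floor_add_one t
    constructor <;> linarith
  rw [hds0] at hle
  have h0 := hds (y + 2 * ⌊t⌋)
  have hpi : 0 < Real.pi ^ 2 := by positivity
  calc ds c Z (y + 2 * ⌊t⌋) = (Real.pi ^ 2 / 4) * (4 / Real.pi ^ 2 * ds c Z (y + 2 * ⌊t⌋)) := by
        field_simp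
    _ ≤ (Real.pi ^ 2 / 4) * (FK M (t - 1 / 2 - m₀) * ds c Z (y + 2 * ⌊t⌋)) := by
        apply mul_le_mul_of_nonneg_left _ (by positivity)
        exact mul_le_mul_of_nonneg_right hfk0 h0
    _ ≤ _ := mul_le_mul_of_nonneg_left hle (by positivity)

end Pool.Agent.L7h50.ME
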