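import Pool.Agent.L7h2.ME.Stm
import Pool.Agent.W356.UBSel
import Pool.Agent.R516.QA

/-!
Project ME (MP_3aaefc_nt), part PAIR: the sieve bound for almost all pairs.
-/

set_option autoImplicit false

namespace Pool.Agent.L7h50.ME

open Finset MeasureTheory Filter Pool.Agent.L7h2.ME

theorem omega_le {d : ℕ} (hd : 1 ≤ d) : (3 : ℝ) ^ d.primeFactors.card ≤ (d : ℝ) ^ 2 := by
  have h1 : (3 : ℝ) ^ d.primeFactors.card ≤ ∏ p ∈ d.primeFactors, (p : ℝ) ^ 2 := by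
    rw [← Finset.prod_const]
    refine Finset.prod_le_prod (fun _ _ => by norm_num) (fun p hp => ?_)
    have : (2 : ℝ) ≤ p := by exact_mod_cast (Nat.prime_of_mem_primeFactors hp).two_le
    nlinarith
  have h2 : ((∏ p ∈ d.primeFactors, p : ℕ) : ℝ) ≤ d := by
    exact_mod_cast Nat.le_of_dvd hd (Nat.prod_primeFactors_dvd d)
  rw [Finset.prod_pow] at h1
  push_cast at h2
  have h0 : 0 ≤ ∏ p ∈ d.primeFactors, (p : ℝ) := Finset.prod_nonneg (fun _ _ => by positivity)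
  exact h1.trans (pow_le_pow_left₀ h0 h2 2)

theorem vol_floor (x β : ℝ) (y : ℤ) (p : ℕ) (hx : 0 < x) :
    volume {α : ℝ | y + 2 * ⌊α * x + β⌋ = (p : ℤ)} ≤ ENNReal.ofReal (1 / x) := by
  refine le_trans (measure_mono (t := Set.Ico (((((p : ℤ) - y) / 2 : ℤ) - β) / x)
    (((((p : ℤ) - y) / 2 : ℤ) + 1 - β) / x)) ?_) ?_
  · intro α hα
    rw [Set.mem_ofPred_eq] at hα
    have : ⌊α * x + β⌋ = ((p : ℤ) - y) / 2 := by omega
    rw [← this, Set.mem_Ico, div_le_iff₀ hx, lt_div_iff₀ hx]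
    constructor
    · linarith [Int.floor_le (α * x + β)]
    · linarith [Int.lt_floor_add_one (α * x + β)]
  · rw [Real.volume_Ico]
    apply ENNReal.ofReal_le_ofReal
    apply le_of_eq
    ring

/-- the `α` for which `y + 2 ⌊α x + β⌋` is a small natural number -/
def sm (x β : ℝ) (y : ℤ) (K : ℕ) : Set ℝ :=
  ⋃ p ∈ Finset.range (K + 1), {α : ℝ | y + 2 * ⌊α * x + β⌋ = (p : ℤ)}

theorem vol_small (x β : ℝ) (y : ℤ) (K : ℕ) (hx : 0 < x) :
    volume (sm x β y K) ≤ ENNReal.ofReal (((K : ℝ) + 1) / x) := by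
  refine (measure_biUnion_finset_le _ _).trans ?_
  refine (Finset.sum_le_sum (fun p _ => vol_floor x β y p hx)).trans ?_
  rw [Finset.sum_const, Finset.card_range, nsmul_eq_mul, ← ENNReal.ofReal_natCast,
    ← ENNReal.ofReal_mul (Nat.cast_nonneg _)]
  apply ENNReal.ofReal_le_ofReal
  push_cast
  apply le_of_eq
  ring

/-- the majorant -/
noncomputable def GS (c : ℕ → ℝ) (Z : ℕ) (x : ℝ) (s : ℕ → ℝ) (α : ℝ) : ℝ :=
  (Real.pi ^ 2 / 4) * ∑ d ∈ Icc 1 Z, c d * FK d (α * x - s d)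

theorem FK_cont' (d : ℕ) : Continuous (FK d) := by
  unfold FK
  fun_prop

theorem GS_cont (c : ℕ → ℝ) (Z : ℕ) (x : ℝ) (s : ℕ → ℝ) : Continuous (GS c Z x s) := by
  unfold GS
  refine continuous_const.mul (continuous_finsetSum _ ?_)
  intro d _
  exact continuous_const.mul ((FK_cont' d).comp (by fun_prop))

/-- the residues -/
def rs (y : ℤ) (d : ℕ) : ℤ := -(y * (((d + 1) / 2 : ℕ) : ℤ))

theorem rs_dvd (y : ℤ) (d : ℕ) (hd : Odd d) : (d : ℤ) ∣ y + 2 * rs y d := by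
  obtain ⟨k, rfl⟩ := hd
  have : (2 * k + 1 + 1) / 2 = k + 1 := by omega
  unfold rs
  rw [this]
  push_cast
  refine ⟨-y, ?_⟩
  ring

theorem GS_ge (hK : S_KER) (c : ℕ → ℝ) (Z : ℕ) (hc : ∀ d, c d ≠ 0 → Odd d)
    (hds : ∀ m : ℤ, 0 ≤ ds c Z m) (y : ℤ) (x β α : ℝ) :
    ds c Z (y + 2 * ⌊α * x + β⌋) ≤ GS c Z x (fun d => (rs y d : ℝ) + 1 / 2 - β) α := by
  have h := hK c Z hc hds y (rs y) (fun d hd => rs_dvd y d hd) (α * x + β)
  unfold GS
  refine h.trans (le_of_eq ?_)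
  congr 1
  refine Finset.sum_congr rfl ?_
  intro d _
  congr 2
  ring

theorem GS_int (hI : S_INT) (c : ℕ → ℝ) (Z : ℕ) (x x' : ℝ) (s s' : ℕ → ℝ) (a b T : ℝ)
    (hab : a ≤ b) (hT : 0 < T)
    (hres : ∀ d d' : ℕ, 1 ≤ d → d ≤ Z → 1 ≤ d' → d' ≤ Z → ∀ l l' : ℤ, |l| < d → |l'| < d' →
      (l ≠ 0 ∨ l' ≠ 0) → T ≤ |(l : ℝ) * x / d + (l' : ℝ) * x' / d'|) :
    ∫ α in a..b, GS c Z x s α * GS c Z x' s' α ≤ (Real.pi ^ 2 / 4) ^ 2 *
      ((b - a) * (∑ d ∈ Icc 1 Z, c d / d) ^ 2 + (∑ d ∈ Icc 1 Z, |c d|) ^ 2 * (2 / T)) := by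
  have hexp : ∀ α : ℝ, GS c Z x s α * GS c Z x' s' α = (Real.pi ^ 2 / 4) ^ 2 *
      ∑ p ∈ Icc 1 Z ×ˢ Icc 1 Z, (c p.1 * c p.2) *
        (FK p.1 (α * x - s p.1) * FK p.2 (α * x' - s' p.2)) := by
    intro α
    unfold GS
    have : (∑ d ∈ Icc 1 Z, c d * FK d (α * x - s d)) * (∑ d ∈ Icc 1 Z, c d * FK d (α * x' - s' d)) =
        ∑ p ∈ Icc 1 Z ×ˢ Icc 1 Z, (c p.1 * c p.2) *
        (FK p.1 (α * x - s p.1) * FK p.2 (α * x' - s' p.2)) := by
      rw [Finset.sum_mul_sum, ← Finset.sum_product']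
      refine Finset.sum_congr rfl ?_
      intro p _
      ring
    rw [← this]
    ring
  simp only [hexp]
  rw [intervalIntegral.integral_const_mul]
  refine mul_le_mul_of_nonneg_left ?_ (by positivity)
  rw [intervalIntegral.integral_finsetSum]
  swap
  · intro p _
    refine Continuous.intervalIntegrable ?_ a b
    exact continuous_const.mul (((FK_cont' p.1).comp (by fun_prop)).mul
      ((FK_cont' p.2).comp (by fun_prop)))
  have hterm : ∀ p ∈ Icc 1 Z ×ˢ Icc 1 Z, ∫ α in a..b, (c p.1 * c p.2) *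
        (FK p.1 (α * x - s p.1) * FK p.2 (α * x' - s' p.2)) ≤
      (c p.1 * c p.2) * ((b - a) / ((p.1 : ℝ) * p.2)) + |c p.1| * |c p.2| * (2 / T) := by
    intro p hp
    rw [Finset.mem_product, Finset.mem_Icc, Finset.mem_Icc] at hp
    obtain ⟨⟨h1, h2⟩, h3, h4⟩ := hp
    have hi := hI p.1 p.2 h1 h3 x x' (s p.1) (s' p.2) a b T hab hT
      (fun l l' hl hl' hne => hres p.1 p.2 h1 h2 h3 h4 l l' hl hl' hne)
    rw [intervalIntegral.integral_const_mul]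
    set I := ∫ α in a..b, FK p.1 (α * x - s p.1) * FK p.2 (α * x' - s' p.2)
    have h5 : (c p.1 * c p.2) * (I - (b - a) / ((p.1 : ℝ) * p.2)) ≤ |c p.1| * |c p.2| * (2 / T) := by
      refine (le_abs_self _).trans ?_
      rw [abs_mul, abs_mul]
      exact mul_le_mul_of_nonneg_left hi (by positivity)
    linarith
  refine (Finset.sum_le_sum hterm).trans (le_of_eq ?_)
  rw [Finset.sum_add_distrib, ← Finset.sum_mul]
  have e1 : ∑ p ∈ Icc 1 Z ×ˢ Icc 1 Z, (c p.1 * c p.2) * ((b - a) / ((p.1 : ℝ) * p.2)) =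
      (b - a) * (∑ d ∈ Icc 1 Z, c d / d) ^ 2 := by
    rw [sq, Finset.sum_mul_sum, ← Finset.sum_product', Finset.mul_sum]
    refine Finset.sum_congr rfl ?_
    intro p _
    ring
  have e2 : ∑ p ∈ Icc 1 Z ×ˢ Icc 1 Z, |c p.1| * |c p.2| = (∑ d ∈ Icc 1 Z, |c d|) ^ 2 := by
    rw [sq, Finset.sum_mul_sum, ← Finset.sum_product']
  rw [e1, e2]

/-- The bound for given weights. -/
theorem pair_bound (hK : S_KER) (hI : S_INT) (c : ℕ → ℝ) (Z K : ℕ) (hc : ∀ d, c d ≠ 0 → Odd d)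
    (hds : ∀ m : ℤ, 0 ≤ ds c Z m)
    (hone : ∀ q : ℕ, q.Prime → K < q → ds c Z (q : ℤ) = 1)
    (y y' : ℤ) (x x' β β' : ℝ) (a b T : ℝ) (hx : 0 < x) (hx' : 0 < x')
    (hab : a ≤ b) (hT : 0 < T)
    (hres : ∀ d d' : ℕ, 1 ≤ d → d ≤ Z → 1 ≤ d' → d' ≤ Z → ∀ l l' : ℤ, |l| < d → |l'| < d' →
      (l ≠ 0 ∨ l' ≠ 0) → T ≤ |(l : ℝ) * x / d + (l' : ℝ) * x' / d'|) :
    volume.real (AA y x β a b ∩ AA y' x' β' a b) ≤ (Real.pi ^ 2 / 4) ^ 2 *
      ((b - a) * (∑ d ∈ Icc 1 Z, c d / d) ^ 2 + (∑ d ∈ Icc 1 Z, |c d|) ^ 2 * (2 / T)) +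
      ((K : ℝ) + 1) / x + ((K : ℝ) + 1) / x' := by
  set s : ℕ → ℝ := fun d => (rs y d : ℝ) + 1 / 2 - β with hs
  set s' : ℕ → ℝ := fun d => (rs y' d : ℝ) + 1 / 2 - β' with hs'
  set H : ℝ → ℝ := fun α => GS c Z x s α * GS c Z x' s' α with hH
  have hHc : Continuous H := (GS_cont c Z x s).mul (GS_cont c Z x' s')
  have hG0 : ∀ α, 0 ≤ GS c Z x s α := fun α => (hds _).trans (GS_ge hK c Z hc hds y x β α)
  have hG0' : ∀ α, 0 ≤ GS c Z x' s' α := fun α => (hds _).trans (GS_ge hK c Z hc hds y' x' β' α)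
  have hH0 : ∀ α, 0 ≤ H α := fun α => mul_nonneg (hG0 α) (hG0' α)
  -- one of them
  have hptw : ∀ (y : ℤ) (x β : ℝ) (α : ℝ), α ∈ AA y x β a b → α ∉ sm x β y K →
      1 ≤ GS c Z x (fun d => (rs y d : ℝ) + 1 / 2 - β) α := by
    intro y x β α hα hns
    obtain ⟨-, q, hq, hqe⟩ := hα
    have hqK : K < q := by
      by_contra hcon
      apply hns
      unfold sm
      rw [Set.mem_iUnion₂]
      exact ⟨q, Finset.mem_range.mpr (by omega), hqe.symm⟩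
    have h1 := GS_ge hK c Z hc hds y x β α
    rw [← hqe, hone q hq hqK] at h1
    exact h1
  have hsub : AA y x β a b ∩ AA y' x' β' a b ⊆
      (({α | 1 ≤ H α} ∩ Set.Ioc a b) ∪ sm x β y K) ∪ sm x' β' y' K := by
    intro α hα
    by_cases h1 : α ∈ sm x β y K
    · left; right; exact h1
    · by_cases h2 : α ∈ sm x' β' y' K
      · right; exact h2
      · left; left
        refine ⟨?_, hα.1.1⟩
        have g1 := hptw y x β α hα.1 h1
        have g2 := hptw y' x' β' α hα.2 h2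
        show 1 ≤ GS c Z x s α * GS c Z x' s' α
        nlinarith [g1, g2]
  have f1 : volume (sm x β y K) ≠ ⊤ := ((vol_small x β y K hx).trans_lt ENNReal.ofReal_lt_top).ne
  have f2 : volume (sm x' β' y' K) ≠ ⊤ :=
    ((vol_small x' β' y' K hx').trans_lt ENNReal.ofReal_lt_top).ne
  have f3 : volume ({α | 1 ≤ H α} ∩ Set.Ioc a b) ≠ ⊤ :=
    ((measure_mono Set.inter_subset_right).trans_lt measure_Ioc_lt_top).ne
  have m1 : volume.real (sm x β y K) ≤ ((K : ℝ) + 1) / x :=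
    ENNReal.toReal_le_of_le_ofReal (by positivity) (vol_small x β y K hx)
  have m2 : volume.real (sm x' β' y' K) ≤ ((K : ℝ) + 1) / x' :=
    ENNReal.toReal_le_of_le_ofReal (by positivity) (vol_small x' β' y' K hx')
  have m3 : volume.real ({α | 1 ≤ H α} ∩ Set.Ioc a b) ≤ ∫ α in a..b, H α := by
    have hm : MeasurableSet {α | 1 ≤ H α} := measurableSet_le measurable_const hHc.measurable
    have hint : Integrable H (volume.restrict (Set.Ioc a b)) :=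
      (hHc.integrableOn_Icc (a := a) (b := b)).mono_set Set.Ioc_subset_Icc_self
    have := mul_meas_ge_le_integral_of_nonneg (μ := volume.restrict (Set.Ioc a b)) (f := H)
      (Filter.Eventually.of_forall hH0) hint 1
    rw [one_mul, measureReal_restrict_apply hm] at this
    rw [intervalIntegral.integral_of_le hab]
    exact this
  have hfin : volume ((({α | 1 ≤ H α} ∩ Set.Ioc a b) ∪ sm x β y K) ∪ sm x' β' y' K) ≠ ⊤ :=
    (measure_union_lt_top (measure_union_lt_top f3.lt_top f1.lt_top) f2.lt_top).ne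
  have m4 := measureReal_mono hsub hfin
  have m5 := measureReal_union_le (μ := volume) (({α | 1 ≤ H α} ∩ Set.Ioc a b) ∪ sm x β y K)
    (sm x' β' y' K)
  have m6 := measureReal_union_le (μ := volume) ({α | 1 ≤ H α} ∩ Set.Ioc a b) (sm x β y K)
  have m7 := GS_int hI c Z x x' s s' a b T hab hT hres
  linarith

open Pool.Agent.W25.UB (GG)
open Pool.Agent.R516 (Pr)

/-- the asymptotics -/
theorem asym (A w : ℝ) (hw : 0 < w) : ∃ N₀ : ℕ, 3 ≤ N₀ ∧ ∀ N : ℕ, N₀ ≤ N →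
    A * (N : ℝ) ^ (-(1 / 100) : ℝ) ≤ w / Real.log N ^ 2 := by
  have ht : Tendsto (fun N : ℕ => (max A 1 * 160000) * ((N : ℝ) ^ (-(1 / 200) : ℝ))) atTop
      (nhds ((max A 1 * 160000) * 0)) :=
    ((tendsto_rpow_neg_atTop (by norm_num : (0 : ℝ) < 1 / 200)).comp
      tendsto_natCast_atTop_atTop).const_mul _
  rw [mul_zero] at ht
  have he := (ht.eventually_le_const hw)
  obtain ⟨N₁, hN₁⟩ := Filter.eventually_atTop.mp he
  refine ⟨max N₁ 3, le_max_right _ _, ?_⟩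
  intro N hN
  have h1 := hN₁ N ((le_max_left _ _).trans hN)
  have hN3 : 3 ≤ N := (le_max_right _ _).trans hN
  have hN0 : (0 : ℝ) < N := by
    have : 0 < N := by omega
    exact_mod_cast this
  have hlog : 0 < Real.log N := Real.log_pos (by
    have : 1 < N := by omega
    exact_mod_cast this)
  rw [le_div_iff₀ (by positivity)]
  have hl : Real.log N ≤ (N : ℝ) ^ (1 / 400 : ℝ) / (1 / 400) :=
    Real.log_le_rpow_div hN0.le (by norm_num)
  have hl2 : Real.log N ^ 2 ≤ 160000 * (N : ℝ) ^ (1 / 200 : ℝ) := by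
    have e : (N : ℝ) ^ (1 / 200 : ℝ) = (N : ℝ) ^ (1 / 400 : ℝ) * (N : ℝ) ^ (1 / 400 : ℝ) := by
      rw [← Real.rpow_add hN0]
      norm_num
    rw [e]
    have h0 : 0 ≤ (N : ℝ) ^ (1 / 400 : ℝ) := by positivity
    nlinarith
  have hA : A ≤ max A 1 := le_max_left _ _
  have hA0 : 0 ≤ max A 1 := zero_le_one.trans (le_max_right _ _)
  have hn : 0 ≤ (N : ℝ) ^ (-(1 / 100) : ℝ) := by positivity
  have e2 : (N : ℝ) ^ (-(1 / 100) : ℝ) * (N : ℝ) ^ (1 / 200 : ℝ) = (N : ℝ) ^ (-(1 / 200) : ℝ) := by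
    rw [← Real.rpow_add hN0]
    norm_num
  calc A * (N : ℝ) ^ (-(1 / 100) : ℝ) * Real.log N ^ 2 ≤
      (max A 1 * (N : ℝ) ^ (-(1 / 100) : ℝ)) * (160000 * (N : ℝ) ^ (1 / 200 : ℝ)) := by
        apply mul_le_mul (mul_le_mul_of_nonneg_right hA hn) hl2 (by positivity) (by positivity)
    _ = (max A 1 * 160000) * ((N : ℝ) ^ (-(1 / 100) : ℝ) * (N : ℝ) ^ (1 / 200 : ℝ)) := by ring
    _ = (max A 1 * 160000) * (N : ℝ) ^ (-(1 / 200) : ℝ) := by rw [e2]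
    _ ≤ w := by linarith

/-- [PAIR] -/
theorem s_PAIR (hK : S_KER) (hI : S_INT) : S_PAIR := by
  classical
  obtain ⟨εs, hεs, hε⟩ := Pool.Agent.R516.ggb 1 (1 / 100) one_pos (by norm_num)
  set ε₁ : ℝ := min εs (1 / 2) with hε₁
  have hε₁0 : 0 < ε₁ := lt_min hεs (by norm_num)
  have hε₁h : ε₁ ≤ 1 / 2 := min_le_right _ _
  obtain ⟨X₀, hX₀⟩ := hε ε₁ hε₁0 (min_le_left _ _)
  set C₁ : ℝ := 4 * (Real.exp (-Real.eulerMascheroniConstant) / ε₁) with hC₁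
  have hC₁0 : 0 < C₁ := by positivity
  refine ⟨(Real.pi ^ 2 / 4) ^ 2 * C₁ ^ 2 + 1, by positivity, ?_⟩
  intro e he a b hab
  obtain ⟨N₁, hN₁3, hN₁⟩ := asym ((Real.pi ^ 2 / 4) ^ 2 * 2 + 4) (b - a) (by linarith)
  refine ⟨max X₀ N₁, ?_⟩
  intro N hN n hn n' hn' hres y y' β β'
  have hNX : X₀ ≤ N := (le_max_left _ _).trans hN
  have hNN : N₁ ≤ N := (le_max_right _ _).trans hN
  have hN3 : 3 ≤ N := hN₁3.trans hNN
  have hN1 : (1 : ℝ) ≤ N := by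
    have : 1 ≤ N := by omega
    exact_mod_cast this
  have hN0 : (0 : ℝ) < N := by linarith
  have hlog : 0 < Real.log N := Real.log_pos (by
    have : 1 < N := by omega
    exact_mod_cast this)
  obtain ⟨hG0, hG1⟩ := hX₀ N hNX
  set z : ℕ := ⌊(N : ℝ) ^ (1 / 100 : ℝ)⌋₊ with hz
  have hz1 : 1 ≤ z := by
    rw [hz, Nat.le_floor_iff (by positivity)]
    simpa using Real.one_le_rpow hN1 (by norm_num : (0 : ℝ) ≤ 1 / 100)
  have hzN : (z : ℝ) ≤ (N : ℝ) ^ (1 / 100 : ℝ) := Nat.floor_le (by positivity)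
  obtain ⟨hP0, hP1⟩ := Pool.Agent.R516.GG_q (Pr N ε₁) z 2 (by norm_num) hG0
  have hpf : (2 : ℕ).primeFactors = {2} := Nat.Prime.primeFactors Nat.prime_two
  rw [hpf] at hP0 hP1
  rw [Nat.totient_two] at hP1
  set P : Finset ℕ := Pr N ε₁ \ {2} with hPdef
  have hPp : ∀ p ∈ P, p.Prime := by
    intro p hp
    rw [hPdef, Finset.mem_sdiff] at hp
    exact (Finset.mem_filter.mp hp.1).2
  obtain ⟨c, hc1, hc2, -, hc4, hc5, hc6⟩ := Pool.Agent.W356.UBSel.main P z hz1 hPp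
  set K : ℕ := ⌊(N : ℝ) ^ ε₁⌋₊ with hKdef
  have hKN : (K : ℝ) ≤ (N : ℝ) ^ ε₁ := Nat.floor_le (by positivity)
  have hodd : ∀ d, c d ≠ 0 → Odd d := by
    intro d hd
    have h := hc5 d hd
    unfold Pool.Agent.W25.UB.sq at h
    have h' := (Finset.mem_filter.mp h).2
    by_contra hcon
    rw [Nat.not_odd_iff_even] at hcon
    have h2 := h'.2 2 Nat.prime_two hcon.two_dvd
    rw [hPdef, Finset.mem_sdiff] at h2
    exact h2.2 (Finset.mem_singleton_self 2)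
  have hone : ∀ q : ℕ, q.Prime → K < q → ds c (z ^ 2) (q : ℤ) = 1 := by
    intro q hq hKq
    refine hc2 (q : ℤ) ?_
    intro p hp hdvd
    have hpp := hPp p hp
    have h3 : p ∣ q := Int.natCast_dvd_natCast.mp hdvd
    have h4 : p = q := (Nat.prime_dvd_prime_iff_eq hpp hq).mp h3
    rw [hPdef, Finset.mem_sdiff] at hp
    have h5 := (Finset.mem_Icc.mp (Finset.mem_filter.mp hp.1).1).2
    rw [h4] at h5
    omega
  have hn1 := (Finset.mem_Ioc.mp hn).1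
  have hn1' := (Finset.mem_Ioc.mp hn').1
  have hpow : ∀ m : ℕ, N < m → (N : ℝ) ≤ (m : ℝ) ^ e := by
    intro m hm
    have h1 : (N : ℝ) ≤ m := by exact_mod_cast hm.le
    have h2 : (m : ℝ) ^ 1 ≤ (m : ℝ) ^ e := pow_le_pow_right₀ (by linarith) he
    rw [pow_one] at h2
    linarith
  have hx := hpow n hn1
  have hx' := hpow n' hn1'
  have hT : 0 < (N : ℝ) ^ (13 / 100 : ℝ) := by positivity
  have hzd : ∀ d : ℕ, d ≤ z ^ 2 → (d : ℝ) ≤ (N : ℝ) ^ (1 / 50 : ℝ) := by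
    intro d hd
    have h1 : (d : ℝ) ≤ (z : ℝ) ^ 2 := by exact_mod_cast hd
    have h2 : (z : ℝ) ^ 2 ≤ ((N : ℝ) ^ (1 / 100 : ℝ)) ^ 2 := pow_le_pow_left₀ (by positivity) hzN 2
    have h3 : ((N : ℝ) ^ (1 / 100 : ℝ)) ^ 2 = (N : ℝ) ^ (1 / 50 : ℝ) := by
      rw [← Real.rpow_natCast, ← Real.rpow_mul hN0.le]
      norm_num
    linarith
  have hb := pair_bound hK hI c (z ^ 2) K hodd hc1 hone y y' ((n : ℝ) ^ e) ((n' : ℝ) ^ e) β β' a b
    ((N : ℝ) ^ (13 / 100 : ℝ)) (by linarith) (by linarith) hab.le hT (by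
      intro d d' hd1 hdz hd1' hdz' l l' hl hl' hne
      by_contra hcon
      push Not at hcon
      exact hres ⟨d, d', hd1, hd1', hzd d hdz, hzd d' hdz', l, l', hl, hl', hne, hcon⟩)
  -- the sum of the weights
  have hsum : ∑ d ∈ Icc 1 (z ^ 2), c d / d ≤ C₁ / Real.log N := by
    rw [hc6]
    refine hP1.trans ?_
    have h1 : ((2 : ℕ) : ℝ) / ((1 : ℕ) : ℝ) * (1 / GG (Pr N ε₁) z) ≤
        2 * ((1 + 1) * (Real.exp (-Real.eulerMascheroniConstant) / (ε₁ * Real.log N))) := by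
      push_cast
      rw [div_one]
      exact mul_le_mul_of_nonneg_left hG1 (by norm_num)
    refine h1.trans (le_of_eq ?_)
    rw [hC₁]
    field_simp
    ring
  have hsum0 : 0 ≤ ∑ d ∈ Icc 1 (z ^ 2), c d / d := by
    rw [hc6]
    positivity
  have hsumsq : (∑ d ∈ Icc 1 (z ^ 2), c d / d) ^ 2 ≤ C₁ ^ 2 / Real.log N ^ 2 := by
    have := pow_le_pow_left₀ hsum0 hsum 2
    rwa [div_pow] at this
  have habs : ∑ d ∈ Icc 1 (z ^ 2), |c d| ≤ (N : ℝ) ^ (6 / 100 : ℝ) := by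
    have h1 : ∀ d ∈ Icc 1 (z ^ 2), |c d| ≤ ((N : ℝ) ^ (1 / 50 : ℝ)) ^ 2 := by
      intro d hd
      rw [Finset.mem_Icc] at hd
      exact (hc4 d).trans ((omega_le hd.1).trans
        (pow_le_pow_left₀ (by positivity) (hzd d hd.2) 2))
    refine (Finset.sum_le_sum h1).trans ?_
    rw [Finset.sum_const, Nat.card_Icc, nsmul_eq_mul, Nat.add_sub_cancel]
    have h2 := hzd (z ^ 2) le_rfl
    have h3 : (N : ℝ) ^ (1 / 50 : ℝ) * ((N : ℝ) ^ (1 / 50 : ℝ)) ^ 2 = (N : ℝ) ^ (6 / 100 : ℝ) := by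
      rw [← pow_succ', ← Real.rpow_natCast, ← Real.rpow_mul hN0.le]
      norm_num
    rw [← h3]
    exact mul_le_mul_of_nonneg_right h2 (by positivity)
  have habssq : (∑ d ∈ Icc 1 (z ^ 2), |c d|) ^ 2 * (2 / (N : ℝ) ^ (13 / 100 : ℝ)) ≤
      2 * (N : ℝ) ^ (-(1 / 100) : ℝ) := by
    have h0 : 0 ≤ ∑ d ∈ Icc 1 (z ^ 2), |c d| := Finset.sum_nonneg fun _ _ => abs_nonneg _
    have h1 := pow_le_pow_left₀ h0 habs 2
    have h2 : ((N : ℝ) ^ (6 / 100 : ℝ)) ^ 2 = (N : ℝ) ^ (12 / 100 : ℝ) := by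
      rw [← Real.rpow_natCast, ← Real.rpow_mul hN0.le]
      norm_num
    rw [h2] at h1
    calc _ ≤ (N : ℝ) ^ (12 / 100 : ℝ) * (2 / (N : ℝ) ^ (13 / 100 : ℝ)) :=
          mul_le_mul_of_nonneg_right h1 (by positivity)
      _ = 2 * ((N : ℝ) ^ (12 / 100 : ℝ) / (N : ℝ) ^ (13 / 100 : ℝ)) := by ring
      _ = 2 * (N : ℝ) ^ (-(1 / 100) : ℝ) := by
          rw [← Real.rpow_sub hN0]
          norm_num
  have hKx : ∀ x : ℝ, (N : ℝ) ≤ x → ((K : ℝ) + 1) / x ≤ 2 * (N : ℝ) ^ (-(1 / 100) : ℝ) := by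
    intro x hxN
    have h1 : (K : ℝ) ≤ (N : ℝ) ^ (1 / 2 : ℝ) := hKN.trans (Real.rpow_le_rpow_of_exponent_le hN1 hε₁h)
    have h2 : (1 : ℝ) ≤ (N : ℝ) ^ (1 / 2 : ℝ) := Real.one_le_rpow hN1 (by norm_num)
    calc ((K : ℝ) + 1) / x ≤ ((K : ℝ) + 1) / N := by
          apply div_le_div_of_nonneg_left (by positivity) hN0 hxN
      _ ≤ (2 * (N : ℝ) ^ (1 / 2 : ℝ)) / N := by
          apply div_le_div_of_nonneg_right (by linarith) hN0.le
      _ = 2 * ((N : ℝ) ^ (1 / 2 : ℝ) / (N : ℝ) ^ (1 : ℝ)) := by rw [Real.rpow_one]; ring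
      _ = 2 * (N : ℝ) ^ (-(1 / 2) : ℝ) := by
          rw [← Real.rpow_sub hN0]
          norm_num
      _ ≤ 2 * (N : ℝ) ^ (-(1 / 100) : ℝ) := by
          have := Real.rpow_le_rpow_of_exponent_le hN1 (by norm_num : (-(1 / 2) : ℝ) ≤ -(1 / 100))
          linarith
  have hk1 := hKx _ hx
  have hk2 := hKx _ hx'
  have has := hN₁ N hNN
  have hba : 0 < b - a := by linarith
  have g1 : (Real.pi ^ 2 / 4) ^ 2 *
      ((b - a) * (∑ d ∈ Icc 1 (z ^ 2), c d / d) ^ 2 +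
        (∑ d ∈ Icc 1 (z ^ 2), |c d|) ^ 2 * (2 / (N : ℝ) ^ (13 / 100 : ℝ))) ≤
      (Real.pi ^ 2 / 4) ^ 2 * ((b - a) * (C₁ ^ 2 / Real.log N ^ 2) +
        2 * (N : ℝ) ^ (-(1 / 100) : ℝ)) := by
    refine mul_le_mul_of_nonneg_left ?_ (by positivity)
    exact add_le_add (mul_le_mul_of_nonneg_left hsumsq hba.le) habssq
  have g2 : ((Real.pi ^ 2 / 4) ^ 2 * C₁ ^ 2 + 1) * (b - a) / Real.log N ^ 2 =
      (Real.pi ^ 2 / 4) ^ 2 * ((b - a) * (C₁ ^ 2 / Real.log N ^ 2)) + (b - a) / Real.log N ^ 2 := by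
    ring
  rw [g2]
  linarith

end Pool.Agent.L7h50.ME
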